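import Pool.Agent.helper80.MV.Main

namespace Pool.Agent.Results.MP_d3024b_co.LimitsThreeFour

open Filter Pool.Agent.helper56.Irr Pool.Agent.helper80.MV

/-- For `m = 3` and `m = 4` the limit is `0` for the pairs `(v, r)` and `(w, r)`: `r(m,n)` are the
classical Ramsey numbers, `v(m,n)` the mixed domination and `w(m,n)` the irredundant-domination
Ramsey numbers. -/
theorem result (m : ℕ) (hm : m = 3 ∨ m = 4) :
    Tendsto (fun n : ℕ => (v m n : ℝ) / (r m n : ℝ)) atTop (nhds 0) ∧
      Tendsto (fun n : ℕ => (w m n : ℝ) / (r m n : ℝ)) atTop (nhds 0) :=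
  limits m hm

end Pool.Agent.Results.MP_d3024b_co.LimitsThreeFour
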