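import Pool.Agent.helper56.Irr.Final

namespace Pool.Agent.Results.MP_d3024b_co.UpperBoundV

open Pool.Agent.helper56.Irr

/-- The mixed domination Ramsey numbers satisfy `v(m,n) ≤ 6 n^(m - 4/3)` for all `m ≥ 3`. -/
theorem result : ∀ m n : ℕ, 3 ≤ m → 1 ≤ n →
    (v m n : ℝ) ≤ 6 * (n : ℝ) ^ ((m : ℝ) - 4 / 3) :=
  fun _ _ hm hn => v_le hm hn

end Pool.Agent.Results.MP_d3024b_co.UpperBoundV
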